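import Pool.Agent.Helper28.BA.GoalsA

/-! BA-DET: the Jacobian is a null Lagrangian for Lipschitz maps. -/

open Complex MeasureTheory Set Filter Topology
open scoped NNReal

namespace Pool.Agent.Helper91.BA

open Pool.Agent.Helper28.BA

variable {P Q : ℂ → ℝ} {C D : ℝ≥0}

theorem int_ld (hQ : LipschitzWith D Q) (cQ : HasCompactSupport Q) (w : ℂ) :
    Integrable (fun x => lineDeriv ℝ Q x w) := by
  have h0 : ∀ x ∉ tsupport Q, lineDeriv ℝ Q x w = 0 := by
    intro x hx
    have h : Q =ᶠ[𝓝 x] fun _ => 0 := notMem_tsupport_iff_eventuallyEq.1 hx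
    rw [h.lineDeriv_eq]
    simp [lineDeriv]
  have h1 : IntegrableOn (fun x => lineDeriv ℝ Q x w) (tsupport Q) :=
    Measure.integrableOn_of_bounded (M := D * ‖w‖) cQ.isCompact.measure_lt_top.ne
      (aestronglyMeasurable_lineDeriv hQ.continuous volume)
      (ae_of_all _ fun x => norm_lineDeriv_le_of_lipschitz ℝ hQ)
  exact (integrableOn_iff_integrable_of_support_subset (fun x hx => by
    by_contra h; exact hx (h0 x h))).1 h1

theorem ld_shift (Q : ℂ → ℝ) (a x v : ℂ) :
    lineDeriv ℝ (fun y => Q (y + a)) x v = lineDeriv ℝ Q (x + a) v := by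
  simp only [lineDeriv]
  congr 1
  funext t
  congr 1
  ring

theorem lip_shift (hQ : LipschitzWith D Q) (a : ℂ) : LipschitzWith D (fun y => Q (y + a)) := by
  apply LipschitzWith.of_dist_le_mul
  intro x y
  have := hQ.dist_le_mul (x + a) (y + a)
  simpa using this

theorem int_mul (hP : LipschitzWith C P) (hQ : LipschitzWith D Q) (cQ : HasCompactSupport Q)
    (v a : ℂ) : Integrable (fun x => Q (x + a) * lineDeriv ℝ P x v) := by
  have h1 : Integrable (fun y => Q (y + a)) :=
    (lip_shift hQ a).continuous.integrable_of_hasCompactSupport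
      (cQ.comp_homeomorph (Homeomorph.addRight a))
  exact h1.mul_of_top_left (hP.memLp_lineDeriv v)

theorem parts (hP : LipschitzWith C P) (hQ : LipschitzWith D Q) (cQ : HasCompactSupport Q)
    (v a : ℂ) :
    ∫ x, Q (x + a) * lineDeriv ℝ P x v = - ∫ x, P (x + -a) * lineDeriv ℝ Q x v := by
  have h1 : LipschitzWith D (fun y => Q (y + a)) := lip_shift hQ a
  have h2 : HasCompactSupport (fun y => Q (y + a)) :=
    cQ.comp_homeomorph (Homeomorph.addRight a)
  have h3 := hP.integral_lineDeriv_mul_eq (μ := volume) h1 h2 v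
  have h4 : ∀ x, lineDeriv ℝ (fun y => Q (y + a)) x (-v) = - lineDeriv ℝ Q (x + a) v := by
    intro x
    rw [lineDeriv_neg, ld_shift]
  simp only [h4] at h3
  calc ∫ x, Q (x + a) * lineDeriv ℝ P x v = ∫ x, lineDeriv ℝ P x v * Q (x + a) := by
        simp_rw [mul_comm]
    _ = ∫ x, - lineDeriv ℝ Q (x + a) v * P x := h3
    _ = - ∫ x, P x * lineDeriv ℝ Q (x + a) v := by
        rw [← integral_neg]
        congr 1
        funext x
        ring
    _ = _ := by
        rw [← integral_add_right_eq_self (μ := volume)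
          (fun x => P (x + -a) * lineDeriv ℝ Q x v) a]
        simp

theorem key (hP : LipschitzWith C P) (hQ : LipschitzWith D Q) (cP : HasCompactSupport P)
    (cQ : HasCompactSupport Q) (v w : ℂ) :
    ∫ x, lineDeriv ℝ Q x w * lineDeriv ℝ P x v = ∫ x, lineDeriv ℝ P x w * lineDeriv ℝ Q x v := by
  have hA := hQ.integral_inv_smul_sub_mul_tendsto_integral_lineDeriv_mul (μ := volume)
    (int_ld hP cP v) w
  have hB := (hP.integral_inv_smul_sub_mul_tendsto_integral_lineDeriv_mul (μ := volume)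
    (int_ld hQ cQ v) (-w)).neg
  have hE : ∀ t : ℝ, ∫ x, (t⁻¹ • (Q (x + t • w) - Q x)) * lineDeriv ℝ P x v =
      - ∫ x, (t⁻¹ • (P (x + t • (-w)) - P x)) * lineDeriv ℝ Q x v := by
    intro t
    have e1 := parts hP hQ cQ v (t • w)
    have e2 := parts hP hQ cQ v 0
    simp only [neg_zero, add_zero] at e2
    have i1 := int_mul hP hQ cQ v (t • w)
    have i2 := int_mul hP hQ cQ v 0
    have i3 := int_mul hQ hP cP v (-(t • w))
    have i4 := int_mul hQ hP cP v 0
    simp only [add_zero] at i2 i4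
    have f1 : ∀ x, (t⁻¹ • (Q (x + t • w) - Q x)) * lineDeriv ℝ P x v =
        t⁻¹ * (Q (x + t • w) * lineDeriv ℝ P x v - Q x * lineDeriv ℝ P x v) := by
      intro x
      rw [smul_eq_mul]
      ring
    have f2 : ∀ x, (t⁻¹ • (P (x + t • (-w)) - P x)) * lineDeriv ℝ Q x v =
        t⁻¹ * (P (x + -(t • w)) * lineDeriv ℝ Q x v - P x * lineDeriv ℝ Q x v) := by
      intro x
      rw [smul_eq_mul, smul_neg]
      ring
    simp_rw [f1, f2]
    rw [integral_const_mul, integral_const_mul, integral_sub i1 i2, integral_sub i3 i4, e1, e2]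
    ring
  have hEq : (fun t : ℝ => ∫ x, (t⁻¹ • (Q (x + t • w) - Q x)) * lineDeriv ℝ P x v) =
      fun t : ℝ => - ∫ x, (t⁻¹ • (P (x + t • (-w)) - P x)) * lineDeriv ℝ Q x v := funext hE
  rw [hEq] at hA
  have h1 := tendsto_nhds_unique hA hB
  rw [h1, ← integral_neg]
  congr 1
  funext x
  rw [lineDeriv_neg]
  ring

theorem alg (a b : ℂ) : ‖(1 / 2 : ℂ) * (a - I * b)‖ ^ 2 - ‖(1 / 2 : ℂ) * (a + I * b)‖ ^ 2 =
    b.im * a.re - b.re * a.im := by
  rw [← Complex.normSq_eq_norm_sq, ← Complex.normSq_eq_norm_sq, Complex.normSq_apply,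
    Complex.normSq_apply]
  simp
  ring

theorem DET : Pool.Agent.Helper28.BA.S_DET := by
  rintro p ⟨K, hK⟩ hc
  have hP := Complex.reCLM.lipschitz.comp hK
  have hQ := Complex.imCLM.lipschitz.comp hK
  have cP : HasCompactSupport (Complex.reCLM ∘ p) := hc.comp_left (map_zero _)
  have cQ : HasCompactSupport (Complex.imCLM ∘ p) := hc.comp_left (map_zero _)
  have hae : ∀ᵐ z, ‖dz p z‖ ^ 2 - ‖db p z‖ ^ 2 =
      lineDeriv ℝ (Complex.imCLM ∘ p) z I * lineDeriv ℝ (Complex.reCLM ∘ p) z 1 -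
      lineDeriv ℝ (Complex.reCLM ∘ p) z I * lineDeriv ℝ (Complex.imCLM ∘ p) z 1 := by
    filter_upwards [hK.ae_differentiableAt (μ := volume)] with z hz
    have h1 : ∀ v, lineDeriv ℝ (Complex.reCLM ∘ p) z v = (fderiv ℝ p z v).re := by
      intro v
      exact ((Complex.reCLM.hasFDerivAt.comp z hz.hasFDerivAt).hasLineDerivAt v).lineDeriv
    have h2 : ∀ v, lineDeriv ℝ (Complex.imCLM ∘ p) z v = (fderiv ℝ p z v).im := by
      intro v
      exact ((Complex.imCLM.hasFDerivAt.comp z hz.hasFDerivAt).hasLineDerivAt v).lineDeriv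
    rw [h1, h1, h2, h2]
    exact alg _ _
  rw [integral_congr_ae hae, integral_sub, key hP hQ cP cQ 1 I, sub_self]
  · exact (int_ld hQ cQ I).mul_of_top_left (hP.memLp_lineDeriv 1)
  · exact (int_ld hP cP I).mul_of_top_left (hQ.memLp_lineDeriv 1)

end Pool.Agent.Helper91.BA
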